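import Pool.Agent.K7.H98.PO.Main

set_option autoImplicit false

/-!
# A metacompact Hausdorff space which is not a pseudo-open compact image of a paracompact space

The negative answer to Q2 of MP_a57f84_gt.

The space. Let `x_i`, `i < ω_1`, be functions from `ℕ` to `ℕ` and `y_j`, `j < κ⁺`, functions from
`ℕ` to a set of size `κ = ℵ_ω` with values in well-ordered blocks, both strictly increasing modulo
finite sets. The points are the finite and the infinite sequences of pairs; the finite sequences are
isolated. Let `A` be the set of the infinite sequences whose first coordinate is no `x_i`, `B` the
set of those whose first coordinate is some `x_i` and whose second coordinate is no `y_j`, and `Z`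
the set of all `z_{i,j} = (x_i, y_j)`. A point `z_{i,j}` is the limit of the sequence of its initial
segments; a point of `A` has as neighbourhoods all points of `A ∪ Z` and all finite sequences which
extend one of its initial segments; similarly for `B`, with all points of `B ∪ Z`.

Metacompactness: closed sets of sequences contained in `Z` are thin, that is, tails of the sets of
initial segments can be chosen point-finite; otherwise a perfect kernel and the Baire category
theorem give an infinite decreasing sequence in `ω_1` or in `κ⁺`.

Pseudo-open maps: let `f` be such a map from a paracompact space `X`, separate the closed sets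
`f⁻¹(A)` and `f⁻¹(B)` and write `X = D ∪ D'` with closed sets `D`, `D'` which miss `f⁻¹(B)` and
`f⁻¹(A)`. For every `z` in `Z` the part of the fibre in `D` or the part in `D'` is active: the images
of its neighbourhoods contain initial segments of `z`. For fixed `i` the parts in `D` of the fibres
of the `z_{i,j}` form a discrete family, and a discrete open expansion shows that at most `κ` of
them are active; for fixed `j` at most countably many of the parts in `D'` of the fibres of the
`z_{i,j}` are active. This is impossible.
-/

namespace Pool.Agent.Results.MP_a57f84_gt.NotPseudoOpenImage

open Set Topology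

universe u

/-- A space is metacompact if every open cover has a point-finite open refinement. -/
def Metacompact (Y : Type) [TopologicalSpace Y] : Prop :=
  ∀ U : Set (Set Y), (∀ u ∈ U, IsOpen u) → ⋃₀ U = Set.univ →
    ∃ V : Set (Set Y), (∀ v ∈ V, IsOpen v ∧ ∃ u ∈ U, v ⊆ u) ∧ ⋃₀ V = Set.univ ∧
      ∀ y : Y, {v | v ∈ V ∧ y ∈ v}.Finite

/-- A map is pseudo-open if for every point `y` and every open set `U` which contains the fibre of
`y`, the point `y` lies in the interior of the image of `U`. -/
def PseudoOpen {X : Type u} {Y : Type} [TopologicalSpace X] [TopologicalSpace Y] (f : X → Y) :
    Prop :=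
  ∀ y : Y, ∀ U : Set X, IsOpen U → f ⁻¹' {y} ⊆ U → y ∈ interior (f '' U)

/-- There is a metacompact Hausdorff space `Y` such that no paracompact Hausdorff space `X` admits
a pseudo-open continuous surjection onto `Y` all of whose fibres are Lindelöf; in particular no
paracompact Hausdorff space admits a pseudo-open compact continuous surjection onto `Y`. -/
theorem result :
    ∃ (Y : Type) (_ : TopologicalSpace Y), T2Space Y ∧ Metacompact Y ∧
      ∀ (X : Type u) [TopologicalSpace X] [T2Space X] [ParacompactSpace X] (f : X → Y),
        Continuous f → Function.Surjective f → (∀ y, IsLindelof (f ⁻¹' {y})) → ¬ PseudoOpen f :=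
  ⟨Pool.Agent.K7.H98.PO.YY, inferInstance, inferInstance, Pool.Agent.K7.H98.PO.metacompact_YY,
    fun X _ _ _ f hf _ hL hpo => Pool.Agent.K7.H98.PO.no_map X f hf hL hpo⟩

end Pool.Agent.Results.MP_a57f84_gt.NotPseudoOpenImage
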